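import Pool.Agent.Helper95.PM.Stmts
import Pool.Agent.Helper20.PW.BID

/-!
# Row BIDM: the double commutator of the form with the momentum operator of a field, molecules
-/

set_option autoImplicit false

namespace Pool.Agent.Helper95.PW

open MeasureTheory Filter

theorem BIDM_int (h7 : ST_INTM) {n : ℕ} (a : R3) {v w : Cf n → ℝ}
    (hv : ContDiff ℝ (⊤ : ℕ∞) v) (hv' : HasCompactSupport v)
    (hw : ContDiff ℝ (⊤ : ℕ∞) w) (hw' : HasCompactSupport w) :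
    Integrable (fun x : Cf n => (∑ k, 1 / nr (x k - a)) * (v x * w x)) := by
  have h := (h7 n 1 (fun _ => a) (fun _ => 1) v w hv hv' hw hw').1
  simpa [pot] using h

theorem BIDM_pot {n M : ℕ} (X : Fin M → R3) (Z : Fin M → ℝ) (x : Cf n) :
    (∑ k, pot X Z (x k)) = ∑ j, Z j * ∑ k, 1 / nr (x k - X j) := by
  unfold pot
  rw [Finset.sum_comm]
  refine Finset.sum_congr rfl fun j _ => ?_
  rw [Finset.mul_sum]
  refine Finset.sum_congr rfl fun k _ => ?_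
  rw [mul_one_div]

theorem BIDM_sum (h7 : ST_INTM) {n M : ℕ} (X : Fin M → R3) (Z : Fin M → ℝ) {v w : Cf n → ℝ}
    (hv : ContDiff ℝ (⊤ : ℕ∞) v) (hv' : HasCompactSupport v)
    (hw : ContDiff ℝ (⊤ : ℕ∞) w) (hw' : HasCompactSupport w) :
    ∫ x, (∑ k, pot X Z (x k)) * (v x * w x) =
      ∑ j, Z j * ∫ x, (∑ k, 1 / nr (x k - X j)) * (v x * w x) := by
  have e : ∀ x : Cf n, (∑ k, pot X Z (x k)) * (v x * w x) =
      ∑ j, Z j * ((∑ k, 1 / nr (x k - X j)) * (v x * w x)) := by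
    intro x
    rw [BIDM_pot, Finset.sum_mul]
    refine Finset.sum_congr rfl fun j _ => ?_
    ring
  simp only [e]
  rw [integral_finset_sum _ fun j _ => (BIDM_int h7 (X j) hv hv' hw hw').const_mul (Z j)]
  refine Finset.sum_congr rfl fun j _ => ?_
  rw [integral_const_mul]

theorem BIDM_one (h7 : ST_INTM) {n M : ℕ} (X : Fin M → R3) (Z : Fin M → ℝ) {u : Wf n}
    (hu : Sm u) : one (pot X Z) u = ∑ j, Z j * one (fun y => 1 / nr (y - X j)) u := by
  unfold one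
  simp only [pow_two]
  rw [Finset.sum_congr rfl fun s _ =>
    BIDM_sum h7 X Z (hu s).1 (hu s).2 (hu s).1 (hu s).2, Finset.sum_comm]
  refine Finset.sum_congr rfl fun j _ => ?_
  rw [Finset.mul_sum]

/-- the terms of `∫ w (H - E) u` -/
theorem BIDM_split (h7 : ST_INTM) {n M : ℕ} (X : Fin M → R3) (Z : Fin M → ℝ) (E : ℝ)
    {w u : Cf n → ℝ} (hw : ContDiff ℝ (⊤ : ℕ∞) w) (hw' : HasCompactSupport w)
    (hu : ContDiff ℝ (⊤ : ℕ∞) u) (hu' : HasCompactSupport u) :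
    ∫ x, w x * (hmM X Z u x - E * u x) =
      -(∫ x, w x * ∑ k, ∑ i, dv k i (dv k i u) x) + (∫ x, rep x * (w x * u x)) -
      (∫ x, (∑ k, pot X Z (x k)) * (w x * u x)) - E * (∫ x, w x * u x) := by
  have i1 : Integrable (fun x => w x * ∑ k, ∑ i, dv k i (dv k i u) x) := by
    apply Continuous.integrable_of_hasCompactSupport
    · refine hw.continuous.mul ?_
      refine continuous_finset_sum _ fun k _ => continuous_finset_sum _ fun i _ => ?_
      exact (bid_dv k i (bid_dv k i hu)).continuous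
    · exact hw'.mul_right
  have i2 := (h7 n M X Z _ _ hw hw' hu hu').2.1
  have i3 := (h7 n M X Z _ _ hw hw' hu hu').1
  have i4 : Integrable (fun x => w x * u x) :=
    (hw.continuous.mul hu.continuous).integrable_of_hasCompactSupport hw'.mul_right
  have e : ∀ x, w x * (hmM X Z u x - E * u x) =
      ((-(w x * ∑ k, ∑ i, dv k i (dv k i u) x) + rep x * (w x * u x)) -
        (∑ k, pot X Z (x k)) * (w x * u x)) - E * (w x * u x) := by
    intro x
    simp only [hmM]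
    ring
  simp only [e]
  have j1 : Integrable (fun x => -(w x * ∑ k, ∑ i, dv k i (dv k i u) x)) := i1.neg
  have j2 : Integrable (fun x => -(w x * ∑ k, ∑ i, dv k i (dv k i u) x) +
      rep x * (w x * u x)) := j1.add i2
  have j4 : Integrable (fun x => (-(w x * ∑ k, ∑ i, dv k i (dv k i u) x) +
      rep x * (w x * u x)) - (∑ k, pot X Z (x k)) * (w x * u x)) := j2.sub i3
  have j5 : Integrable (fun x => E * (w x * u x)) := i4.const_mul E
  rw [integral_sub j4 j5, integral_sub j2 i3, integral_add j1 i2, integral_neg,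
    integral_const_mul]

theorem BIDM_ind (S : Set R3) (y : R3) : 0 ≤ ind S y := by
  unfold ind
  exact Set.indicator_nonneg (fun _ _ => zero_le_one) _

theorem BIDM_potnn {M : ℕ} (X : Fin M → R3) {Z : Fin M → ℝ} (hZ : ∀ j, 0 ≤ Z j) (y : R3) :
    0 ≤ pot X Z y :=
  Finset.sum_nonneg fun j _ => div_nonneg (hZ j) (bid_nr _)

theorem st_BIDM (h1 : ST_QHM) (h2 : ST_PAN) (h3 : ST_STB) (h4 : ST_KINM) (h5 : ST_POE)
    (h6 : ST_PONM) (h7 : ST_INTM) : ST_BIDM := by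
  obtain ⟨C1, hC1, hK⟩ := h4
  obtain ⟨C2, hC2, hP⟩ := h5
  obtain ⟨C3, hC3, hO⟩ := h6
  refine ⟨C1 + C2 + C3, by positivity, ?_⟩
  intro n M X Z E g K r S u hZ hg hr hS hgS hgr hu
  have hPu : Sm (fun s => Pg g (u s)) := (h3 n g u hg.sm hu).2.1
  have hPPu : Sm (fun s => Pg g (Pg g (u s))) := (h3 n g _ hg.sm hPu).2.1
  have a1 := hK n g K r S u hg hr hS hgS hu
  have a2 := hP n g K r u hg hr hu
  have a4 := bid_norm h2 h3 hg.sm hu
  have a5 : (∑ s, ∫ x, (∑ k, pot X Z (x k)) * (Pg g (Pg g (u s)) x * u s x)) =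
      ∑ j, Z j * ∑ s, ∫ x, (∑ k, 1 / nr (x k - X j)) * (Pg g (Pg g (u s)) x * u s x) := by
    rw [Finset.sum_congr rfl fun s _ =>
      BIDM_sum h7 X Z (hPPu s).1 (hPPu s).2 (hu s).1 (hu s).2, Finset.sum_comm]
    refine Finset.sum_congr rfl fun j _ => ?_
    rw [Finset.mul_sum]
  have a3 : -(one (pot X Z) (fun s => Pg g (u s)) +
      (∑ s, ∫ x, (∑ k, pot X Z (x k)) * (Pg g (Pg g (u s)) x * u s x))) ≤
      C3 * K ^ 2 / r ^ 2 * one (pot X Z) u := by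
    rw [a5, BIDM_one h7 X Z hPu, BIDM_one h7 X Z hu, ← Finset.sum_add_distrib,
      ← Finset.sum_neg_distrib, Finset.mul_sum]
    refine Finset.sum_le_sum fun j _ => ?_
    have b := mul_le_mul_of_nonneg_left (hO n g K r (X j) u hg hr (hgr j) hu) (hZ j)
    linarith
  have a6 : ∑ s, ∫ x, Pg g (Pg g (u s)) x * (hmM X Z (u s) x - E * u s x) =
      -(∑ s, ∫ x, Pg g (Pg g (u s)) x * ∑ k, ∑ i, dv k i (dv k i (u s)) x) +
      (∑ s, ∫ x, rep x * (Pg g (Pg g (u s)) x * u s x)) -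
      (∑ s, ∫ x, (∑ k, pot X Z (x k)) * (Pg g (Pg g (u s)) x * u s x)) -
      E * (∑ s, ∫ x, Pg g (Pg g (u s)) x * u s x) := by
    rw [Finset.sum_congr rfl fun s _ =>
      BIDM_split h7 X Z E (hPPu s).1 (hPPu s).2 (hu s).1 (hu s).2, Finset.sum_sub_distrib,
      Finset.sum_sub_distrib, Finset.sum_add_distrib, Finset.sum_neg_distrib,
      ← Finset.mul_sum]
  rw [a6]
  unfold QM
  rw [a4]
  have b1 : 0 ≤ K ^ 2 * (kin u / r ^ 2) :=
    mul_nonneg (sq_nonneg _) (div_nonneg (bid_kin u) (by positivity))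
  have b2 : 0 ≤ K ^ 2 * (pair u / r ^ 2) :=
    mul_nonneg (sq_nonneg _) (div_nonneg (bid_pair u) (by positivity))
  have b3 : 0 ≤ K ^ 2 * (one (pot X Z) u / r ^ 2) :=
    mul_nonneg (sq_nonneg _) (div_nonneg (bid_one _ (BIDM_potnn X hZ) u) (by positivity))
  have b4 : 0 ≤ K ^ 2 * (one (ind S) u / r ^ 4) :=
    mul_nonneg (sq_nonneg _) (div_nonneg (bid_one _ (BIDM_ind S) u) (by positivity))
  generalize (∑ s, ∫ x, Pg g (Pg g (u s)) x * ∑ k, ∑ i, dv k i (dv k i (u s)) x) = L at *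
  generalize (∑ s, ∫ x, rep x * (Pg g (Pg g (u s)) x * u s x)) = Rp at *
  generalize (∑ s, ∫ x, (∑ k, pot X Z (x k)) * (Pg g (Pg g (u s)) x * u s x)) = At at *
  generalize (∑ s, ∫ x, Pg g (Pg g (u s)) x * u s x) = I4 at *
  generalize kin (fun s => Pg g (u s)) = X1 at *
  generalize pair (fun s => Pg g (u s)) = X2 at *
  generalize one (pot X Z) (fun s => Pg g (u s)) = X3 at *
  generalize one (pot X Z) u = O1 at *
  generalize one (ind S) u = B1 at *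
  generalize kin u = K1 at *
  generalize pair u = P1 at *
  have c1 : 0 ≤ C1 * (K ^ 2 * (P1 / r ^ 2)) := mul_nonneg hC1.le b2
  have c2 : 0 ≤ C1 * (K ^ 2 * (O1 / r ^ 2)) := mul_nonneg hC1.le b3
  have c3 : 0 ≤ C2 * (K ^ 2 * (K1 / r ^ 2)) := mul_nonneg hC2.le b1
  have c4 : 0 ≤ C2 * (K ^ 2 * (O1 / r ^ 2)) := mul_nonneg hC2.le b3
  have c5 : 0 ≤ C2 * (K ^ 2 * (B1 / r ^ 4)) := mul_nonneg hC2.le b4
  have c6 : 0 ≤ C3 * (K ^ 2 * (K1 / r ^ 2)) := mul_nonneg hC3.le b1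
  have c7 : 0 ≤ C3 * (K ^ 2 * (P1 / r ^ 2)) := mul_nonneg hC3.le b2
  have c8 : 0 ≤ C3 * (K ^ 2 * (B1 / r ^ 4)) := mul_nonneg hC3.le b4
  have e1 : (C1 + C2 + C3) * K ^ 2 * ((K1 + P1 + O1) / r ^ 2 + B1 / r ^ 4) =
      C1 * K ^ 2 * (K1 / r ^ 2 + B1 / r ^ 4) + C2 * K ^ 2 / r ^ 2 * P1 +
      C3 * K ^ 2 / r ^ 2 * O1 +
      (C1 * (K ^ 2 * (P1 / r ^ 2)) + C1 * (K ^ 2 * (O1 / r ^ 2)) +
      C2 * (K ^ 2 * (K1 / r ^ 2)) + C2 * (K ^ 2 * (O1 / r ^ 2)) +
      C2 * (K ^ 2 * (B1 / r ^ 4)) + C3 * (K ^ 2 * (K1 / r ^ 2)) +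
      C3 * (K ^ 2 * (P1 / r ^ 2)) + C3 * (K ^ 2 * (B1 / r ^ 4))) := by
    ring
  rw [e1]
  clear a4 a5 a6 hgS hgr
  linarith [a1, a2, a3, c1, c2, c3, c4, c5, c6, c7, c8]

end Pool.Agent.Helper95.PW
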